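import Pool.Agent.Q216.ZD.Base

set_option autoImplicit false

/-! # Project ZD (helper216), job CNT: counters (helper184) -/

namespace Pool.Agent.Q184.ZD

open Encodable Pool.Agent.Helper227
open Pool.Agent.TH769.TP (Unb)
open Pool.Agent.Q216.ZD

/-- the counter -/
def Qc (q : List Bool × (ℕ × ℕ) → ℕ → Prop) (n : ℕ) (σ : List Bool) (k : ℕ) : Prop :=
  ∃ q0 < n, ∀ c < k, ∃ s < σ.length + 1, q (σ.take s, (q0, c)) σ.length

theorem qc_prim {q : List Bool × (ℕ × ℕ) → ℕ → Prop} (hq : PrimrecRel q) :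
    PrimrecPred fun x : ℕ × List Bool × ℕ => Qc q x.1 x.2.1 x.2.2 := by
  refine PP.ex_lt (α := ℕ × List Bool × ℕ) (f := fun x => x.1)
    (p := fun x q0 => ∀ c < x.2.2, ∃ s < x.2.1.length + 1,
      q (x.2.1.take s, (q0, c)) x.2.1.length) ?_ Primrec.fst
  refine PP.all_lt (α := (ℕ × List Bool × ℕ) × ℕ) (f := fun y => y.1.2.2)
    (p := fun y c => ∃ s < y.1.2.1.length + 1,
      q (y.1.2.1.take s, (y.2, c)) y.1.2.1.length) ?_
      (Primrec.snd.comp (Primrec.snd.comp Primrec.fst))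
  have h1 : Primrec fun y : ((ℕ × List Bool × ℕ) × ℕ) × ℕ => y.1.1.2.1 :=
    Primrec.fst.comp (Primrec.snd.comp (Primrec.fst.comp Primrec.fst))
  refine PP.ex_lt (α := ((ℕ × List Bool × ℕ) × ℕ) × ℕ) (f := fun z => z.1.1.2.1.length + 1)
    (p := fun z s => q (z.1.1.2.1.take s, (z.1.2, z.2)) z.1.1.2.1.length) ?_
      (Primrec.succ.comp (Primrec.list_length.comp h1))
  refine hq.comp ?_ (Primrec.list_length.comp (h1.comp Primrec.fst))
  refine (Primrec.list_take.comp Primrec.snd (h1.comp Primrec.fst)).pair ?_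
  exact (Primrec.snd.comp (Primrec.fst.comp Primrec.fst)).pair (Primrec.snd.comp Primrec.fst)

/-- **job CNT** -/
theorem t_CNT : S_CNT := by
  intro P hP
  obtain ⟨E, ⟨q, hq, hm, he⟩, mE, eE⟩ := hP
  refine ⟨Qc q, qc_prim hq, ⟨?_, ?_, ?_⟩, ?_⟩
  · rintro n σ τ k ⟨ρ, rfl⟩ ⟨q0, hq0, h⟩
    refine ⟨q0, hq0, fun c hc => ?_⟩
    obtain ⟨s, hs, h1⟩ := h c hc
    have hl : (σ ++ ρ).length = σ.length + ρ.length := List.length_append
    refine ⟨s, by omega, ?_⟩
    rw [List.take_append_of_le_length (by omega)]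
    exact hm _ _ _ (by omega) h1
  · rintro n σ k ⟨q0, hq0, h⟩
    exact ⟨q0, by omega, h⟩
  · rintro n σ k k' hk ⟨q0, hq0, h⟩
    exact ⟨q0, hq0, fun c hc => h c (by omega)⟩
  · intro X n
    -- one hypothesis
    have h1 : ∀ q0 c, P X (q0, c) ↔ ∃ t, ∃ s < t + 1, q ((pre X t).take s, (q0, c)) t := by
      intro q0 c
      rw [eE]
      constructor
      · rintro ⟨s, hs⟩
        obtain ⟨m, hm'⟩ := (he _).1 hs
        refine ⟨max s m, s, by omega, ?_⟩
        rw [take_pre X _ _ (le_max_left s m)]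
        exact hm _ _ _ (le_max_right s m) hm'
      · rintro ⟨t, s, hs, h⟩
        rw [take_pre X _ _ (by omega)] at h
        exact ⟨s, (he _).2 ⟨t, h⟩⟩
    have h2 : ∀ q0 c t t', t ≤ t' → (∃ s < t + 1, q ((pre X t).take s, (q0, c)) t) →
        ∃ s < t' + 1, q ((pre X t').take s, (q0, c)) t' := by
      rintro q0 c t t' htt ⟨s, hs, h⟩
      refine ⟨s, by omega, ?_⟩
      rw [take_pre X _ _ (by omega)] at h ⊢
      exact hm _ _ _ htt h
    constructor
    · intro hU
      by_contra hcon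
      push Not at hcon
      -- for every hypothesis a bad `c`
      choose! bad hbad using hcon
      obtain ⟨s, q0, hq0, h⟩ := hU ((Finset.range n).sup bad + 1)
      have h3 : bad q0 ≤ (Finset.range n).sup bad :=
        Finset.le_sup (f := bad) (Finset.mem_range.2 hq0)
      obtain ⟨t, ht, h4⟩ := h (bad q0) (by omega)
      rw [length_pre] at ht h4
      exact hbad q0 hq0 ((h1 _ _).2 ⟨s, t, ht, h4⟩)
    · rintro ⟨q0, hq0, h⟩ k
      have h3 : ∃ t, ∀ c < k, ∃ s < t + 1, q ((pre X t).take s, (q0, c)) t := by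
        induction k with
        | zero => exact ⟨0, fun c hc => absurd hc (by omega)⟩
        | succ k ih =>
          obtain ⟨t, ht⟩ := ih
          obtain ⟨t', ht'⟩ := (h1 q0 k).1 (h k)
          refine ⟨max t t', fun c hc => ?_⟩
          rcases Nat.lt_succ_iff_lt_or_eq.1 hc with h4 | rfl
          · exact h2 q0 c t _ (le_max_left _ _) (ht c h4)
          · exact h2 q0 c t' _ (le_max_right _ _) ht'
      obtain ⟨t, ht⟩ := h3
      refine ⟨t, q0, hq0, fun c hc => ?_⟩
      rw [length_pre]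
      exact ht c hc

end Pool.Agent.Q184.ZD
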